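import Pool.Agent.X90.DI.MainS

/-!
# The values behind a word in `S` span all values with one large argument
-/

set_option autoImplicit false

namespace Pool.Agent.X90.DI

open Finset
open Pool.Agent.Y760.ZG (mz)
open Pool.Agent.Y760.ZF (sti)
open Pool.Agent.X90.DB (Ad ix ex ex_nil ex_ne sti_mem)
open Pool.Agent.X90.DC
open Pool.Agent.X90.DD
open Pool.Agent.X90.DE

lemma sti_pos {u v : List ℕ} (hu : ∀ t ∈ u, 1 ≤ t) (hv : ∀ t ∈ v, 1 ≤ t) :
    ∀ x ∈ sti u v, ∀ t ∈ x, 1 ≤ t := by
  intro x hx t ht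
  rcases sti_mem (L := {a | 1 ≤ a}) (L' := {a | 1 ≤ a}) u v hu hv x hx t ht with
    h | h | ⟨b, hb, c, _, rfl⟩
  · exact h
  · exact h
  · exact le_trans hb (Nat.le_add_right _ _)

lemma sti_nil_left (l : List ℕ) : sti [] l = [l] := by
  rw [sti]

lemma sti_cons (c : ℕ) (h : List ℕ) (a : ℕ) (r : List ℕ) : sti (c :: h) (a :: r) =
    (sti h (a :: r)).map (c :: ·) ++ (sti (c :: h) r).map (a :: ·) ++
      (sti h r).map ((c + a) :: ·) := by
  rw [sti]

/-- the stuffle product of a word and a word that begins with the letter `a` -/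
lemma sti_large (r : List ℕ) (hr : ∀ t ∈ r, 1 ≤ t) (h : List ℕ) : (∀ t ∈ h, 1 ≤ t) →
    ∃ L : List (List ℕ × ℕ × List ℕ),
      (∀ x ∈ L, x.1 <+: h ∧ (∀ t ∈ x.2.2, 1 ≤ t) ∧ x.1.sum + x.2.1 + x.2.2.sum = h.sum + r.sum) ∧
      ∀ a : ℕ, sti h (a :: r) = L.map fun x => x.1 ++ (a + x.2.1) :: x.2.2 := by
  induction h with
  | nil =>
    intro _
    refine ⟨[([], 0, r)], ?_, fun a => ?_⟩
    · intro x hx
      rw [List.mem_singleton] at hx
      subst hx
      exact ⟨List.prefix_rfl, hr, by simp⟩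
    · rw [sti_nil_left]
      simp
  | cons c h ih =>
    intro hh
    obtain ⟨L, hL1, hL2⟩ := ih fun t ht => hh t (List.mem_cons_of_mem _ ht)
    refine ⟨(L.map fun x => (c :: x.1, x.2.1, x.2.2)) ++
      ((sti (c :: h) r).map fun x => ([], 0, x)) ++ (sti h r).map fun x => ([], c, x), ?_,
      fun a => ?_⟩
    · intro x hx
      rw [List.mem_append, List.mem_append, List.mem_map, List.mem_map, List.mem_map] at hx
      rcases hx with (⟨y, hy, rfl⟩ | ⟨y, hy, rfl⟩) | ⟨y, hy, rfl⟩
      · obtain ⟨h1, h2, h3⟩ := hL1 y hy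
        refine ⟨List.cons_prefix_cons.2 ⟨rfl, h1⟩, h2, ?_⟩
        simp only [List.sum_cons]
        omega
      · refine ⟨List.nil_prefix, sti_pos hh hr y hy, ?_⟩
        have := sti_sum _ _ y hy
        simp only [List.sum_nil]
        omega
      · refine ⟨List.nil_prefix, sti_pos (fun t ht => hh t (List.mem_cons_of_mem _ ht)) hr y hy, ?_⟩
        have := sti_sum _ _ y hy
        simp only [List.sum_nil, List.sum_cons]
        omega
    · rw [sti_cons, hL2 a, List.map_append, List.map_append, List.map_map, List.map_map,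
        List.map_map, List.map_map]
      congr 1
      refine List.map_congr_left fun x _ => ?_
      show (c + a) :: x = [] ++ (a + c) :: x
      rw [List.nil_append, Nat.add_comm]

/-- the value as a function of `s` -/
noncomputable def Fs (W : ℕ) (i : List ℕ × List ℕ) : ℕ → ℝ := fun s =>
  if 2 ≤ s then mz (wd W s i) else 0

/-- the product as a function of `s` -/
noncomputable def Gs (W n : ℕ) (r : List ℕ) (y : ℝ) : ℕ → ℝ := fun s =>
  if 2 ≤ s then y * mz (gw W s n r) else 0

lemma Gs_add (W n : ℕ) (r : List ℕ) (y y' : ℝ) : Gs W n r (y + y') = Gs W n r y + Gs W n r y' := by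
  funext s
  simp only [Gs, Pi.add_apply]
  split_ifs
  · ring
  · ring

lemma Gs_smul (W n : ℕ) (r : List ℕ) (a : ℚ) (y : ℝ) : Gs W n r (a • y) = a • Gs W n r y := by
  funext s
  simp only [Gs, Pi.smul_apply, Rat.smul_def]
  split_ifs
  · ring
  · ring

lemma Gs_zero (W n : ℕ) (r : List ℕ) : Gs W n r 0 = 0 := by
  funext s
  simp [Gs]

lemma G_word {S : List ℕ → Prop} (hS : ∀ q, S q → ∀ p, p <+: q → S p) {W : ℕ} {h r : List ℕ}
    (hh : h = [] ∨ Ad h) (hSh : S h) (hr : ∀ t ∈ r, 1 ≤ t) (hW : h.sum + r.sum ≤ W) :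
    Gs W h.sum r (mz h) ∈ Submodule.span ℚ (Fs W '' {i | i ∈ IFS S W}) := by
  have hpos : ∀ t ∈ h, 1 ≤ t := by
    rcases hh with rfl | hh
    · simp
    · exact hh.pos
  obtain ⟨L, hL1, hL2⟩ := sti_large r hr h hpos
  have h1 : Gs W h.sum r (mz h) = (L.map fun x => Fs W (x.1, x.2.2)).sum := by
    funext s
    have h2 : (L.map fun x => Fs W (x.1, x.2.2)).sum s =
        (L.map fun x => Fs W (x.1, x.2.2) s).sum := by
      clear hL1 hL2
      induction L with
      | nil => rfl
      | cons y L ih => rw [List.map_cons, List.sum_cons, List.map_cons, List.sum_cons,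
          Pi.add_apply, ih]
    rw [h2]
    simp only [Gs, Fs]
    split_ifs with hs
    · have h3 : (L.map fun x => mz (wd W s (x.1, x.2.2))).sum =
          ((sti h (gw W s h.sum r)).map mz).sum := by
        rw [gw, hL2, List.map_map]
        congr 1
        refine List.map_congr_left fun x hx => ?_
        obtain ⟨-, -, h4⟩ := hL1 x hx
        simp only [Function.comp, wd, gw]
        congr 3
        omega
      rw [h3]
      rcases hh with rfl | hh
      · rw [sti_nil_left]
        simp [mz]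
      · exact mz_stuffle _ _ hh ⟨by omega, hr⟩
    · simp
  rw [h1]
  refine list_sum_mem fun y hy => ?_
  rw [List.mem_map] at hy
  obtain ⟨x, hx, rfl⟩ := hy
  obtain ⟨h2, h3, h4⟩ := hL1 x hx
  refine Submodule.subset_span ⟨_, ?_, rfl⟩
  refine mem_IFS.2 ⟨⟨?_, h3, by simp only; omega⟩, hS h hSh _ h2⟩
  obtain ⟨t, ht⟩ := h2
  rcases hh with rfl | hh
  · left
    exact (List.append_eq_nil_iff.1 ht).1
  · rw [← ht] at hh
    exact ad_of_prefix hh

/-- **the values behind a word in `S` span, uniformly in the large argument** -/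
theorem span_main {S : List ℕ → Prop} (hS : ∀ q, S q → ∀ p, p <+: q → S p) {W : ℕ}
    (hB : ∀ p : List ℕ, (p = [] ∨ Ad p) → p.sum ≤ W → mz p ∈ WSS S p.sum)
    (i : List ℕ × List ℕ) (hi : i ∈ IF W) :
    Fs W i ∈ Submodule.span ℚ (Fs W '' {i | i ∈ IFS S W}) := by
  classical
  -- products
  have h1 : ∀ (p r : List ℕ), (p = [] ∨ Ad p) → (∀ t ∈ r, 1 ≤ t) → p.sum + r.sum ≤ W →
      Gs W p.sum r (mz p) ∈ Submodule.span ℚ (Fs W '' {i | i ∈ IFS S W}) := by
    intro p r hp hr hW
    have h2 := hB p hp (by omega)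
    have h3 : ∀ y ∈ WSS S p.sum, Gs W p.sum r y ∈ Submodule.span ℚ (Fs W '' {i | i ∈ IFS S W}) := by
      intro y hy
      rw [WSS] at hy
      induction hy using Submodule.span_induction with
      | mem y hy =>
        obtain ⟨q, ⟨⟨hq1, hq2⟩, hq3⟩, rfl⟩ := hy
        rw [← hq2]
        exact G_word hS hq1 hq3 hr (by omega)
      | zero =>
        rw [Gs_zero]
        exact Submodule.zero_mem _
      | add y z _ _ hy hz =>
        rw [Gs_add]
        exact Submodule.add_mem _ hy hz
      | smul a y _ hy =>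
        rw [Gs_smul]
        exact Submodule.smul_mem _ _ hy
    exact h3 _ h2
  obtain ⟨m, ii, jj, cc, hexp, -⟩ := core W 1
  have h2 : Fs W i = ∑ j with ii j = ⟨i, hi⟩, (cc j : ℚ) • Gs W (jj j).1.1.sum (jj j).1.2
      (mz (jj j).1.1) := by
    funext s
    rw [Finset.sum_apply]
    simp only [Pi.smul_apply, Fs, Gs]
    split_ifs with hs
    · have h3 := hexp ℝ mz mz_stuffle s hs fun i' => if i' = ⟨i, hi⟩ then 1 else 0
      have hexR : ∀ u, ex mz u = mz u := by
        intro u
        by_cases h : u = []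
        · rw [h, ex_nil, mz]
        · rw [ex_ne _ h]
      simp only [hexR] at h3
      rw [sum_eq_single (⟨i, hi⟩ : ↥(IF W)) (fun i' _ hi' => by
        rw [if_neg hi', Int.cast_zero, zero_mul]) (fun h => absurd (mem_univ _) h), if_pos rfl,
        Int.cast_one, one_mul] at h3
      rw [h3, sum_filter]
      refine sum_congr rfl fun j _ => ?_
      split_ifs with hj
      · rw [one_mul, Rat.smul_def]
        push_cast
        ring
      · rw [zero_mul, Int.cast_zero, zero_mul]
    · simp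
  rw [h2]
  refine Submodule.sum_mem _ fun j _ => Submodule.smul_mem _ _ ?_
  obtain ⟨g1, g2, g3⟩ := mem_IF.1 (jj j).2
  exact h1 _ _ g1 g2 g3

end Pool.Agent.X90.DI
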