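import Pool.Agent.X90.DE.Main

/-!
# Words with one large letter and a fixed part in a given set
-/

set_option autoImplicit false

namespace Pool.Agent.X90.DI

open Finset
open Pool.Agent.X90.DB (Ad)
open Pool.Agent.X90.DE

/-- the admissible words of weight `n` in `S` -/
noncomputable def adS (S : List ℕ → Prop) (n : ℕ) : Finset (List ℕ) := by
  classical
  exact (ad n).filter S

lemma mem_adS {S : List ℕ → Prop} {n : ℕ} {q : List ℕ} :
    q ∈ adS S n ↔ ((q = [] ∨ Ad q) ∧ q.sum = n) ∧ S q := by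
  classical
  have e : adS S n = (ad n).filter S := by
    rw [adS]
  rw [e, mem_filter, mem_ad]

/-- the triples of an admissible word in `S` and a word, of total weight at most `W` -/
noncomputable def IFS (S : List ℕ → Prop) (W : ℕ) : Finset (List ℕ × List ℕ) :=
  (range (W + 1)).biUnion fun n => adS S n ×ˢ rs (W - n)

lemma mem_IFS {S : List ℕ → Prop} {W : ℕ} {i : List ℕ × List ℕ} : i ∈ IFS S W ↔
    ((i.1 = [] ∨ Ad i.1) ∧ (∀ t ∈ i.2, 1 ≤ t) ∧ i.1.sum + i.2.sum ≤ W) ∧ S i.1 := by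
  rw [IFS, mem_biUnion]
  constructor
  · rintro ⟨n, hn, h⟩
    rw [mem_range] at hn
    rw [mem_product, mem_adS, mem_rs] at h
    exact ⟨⟨h.1.1.1, h.2.1, by omega⟩, h.1.2⟩
  · rintro ⟨⟨h1, h2, h3⟩, h4⟩
    exact ⟨i.1.sum, mem_range.2 (by omega), mem_product.2 ⟨mem_adS.2 ⟨⟨h1, rfl⟩, h4⟩,
      mem_rs.2 ⟨h2, by omega⟩⟩⟩

lemma card_IFS (S : List ℕ → Prop) (W : ℕ) :
    (IFS S W).card = ∑ n ∈ range (W + 1), 2 ^ (W - n) * (adS S n).card := by
  rw [IFS, card_biUnion]
  · refine sum_congr rfl fun n _ => ?_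
    rw [card_product, card_rs, mul_comm]
  · intro i _ j _ hij
    simp only [Function.onFun]
    rw [disjoint_left]
    intro r h1 h2
    rw [mem_product, mem_adS] at h1 h2
    exact hij (h1.1.1.2.symm.trans h2.1.1.2)

end Pool.Agent.X90.DI
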