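import Pool.Agent.X90.DI.RkS

/-!
# The space spanned by the relations of bounded height, fixed part in a given set
-/

set_option autoImplicit false

namespace Pool.Agent.X90.DI

open Finset
open Pool.Agent.Y760.ZG (mz)
open Pool.Agent.Y760.ZF (sti)
open Pool.Agent.X90.DB (Ad ix ex ex_nil ex_ne)
open Pool.Agent.X90.DC
open Pool.Agent.X90.DD
open Pool.Agent.X90.DE

lemma wdS_inj {S : List ℕ → Prop} {W s : ℕ} (hs : W < s) : Function.Injective fun i : ↥(IFS S W) => wd W s i.1 := by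
  intro i i' h
  have h1 := (mem_IFS.1 i.2).1.2.2
  have h2 := (mem_IFS.1 i'.2).1.2.2
  obtain ⟨g1, g2, g3⟩ := split_inj W i.1.1 i'.1.1 i.1.2 i'.1.2 _ _
    (fun t ht => (le_of_mem_sum ht).trans (by omega))
    (fun t ht => (le_of_mem_sum ht).trans (by omega)) (by omega) (by omega) h
  ext1
  exact Prod.ext g1 g3

lemma wdS_pos {S : List ℕ → Prop} {W s : ℕ} (hs : 1 ≤ s) (i : ↥(IFS S W)) : ∀ a ∈ wd W s i.1, 1 ≤ a := by
  intro a ha
  obtain ⟨h1, h2, h3⟩ := (mem_IFS.1 i.2).1
  rw [wd, gw, List.mem_append, List.mem_cons] at ha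
  rcases ha with ha | rfl | ha
  · rcases h1 with h1 | h1
    · rw [h1] at ha
      exact absurd ha List.not_mem_nil
    · exact h1.pos a ha
  · omega
  · exact h2 a ha

/-- the indices of weight `k` with an entry at least `k - W`, behind a word in `S` -/
def FamS (S : List ℕ → Prop) (W k : ℕ) (w : List ℕ) : Prop :=
  ∃ (q : List ℕ) (t : ℕ) (r : List ℕ), w = q ++ t :: r ∧ ((q = [] ∨ Ad q) ∧ S q) ∧
    (∀ a ∈ r, 1 ≤ a) ∧ w.sum = k ∧ k ≤ t + W

lemma famS_iff {S : List ℕ → Prop} {W s : ℕ} (w : List ℕ) :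
    FamS S W (s + W) w ↔ ∃ i : ↥(IFS S W), w = wd W s i.1 := by
  constructor
  · rintro ⟨q, t, r, rfl, ⟨h1, h1'⟩, hr, h2, h3⟩
    rw [List.sum_append, List.sum_cons] at h2
    refine ⟨⟨(q, r), mem_IFS.2 ⟨⟨h1, hr, ?_⟩, h1'⟩⟩, ?_⟩
    · simp only
      omega
    · show _ = q ++ (W - q.sum - r.sum + s) :: r
      have h4 : t = W - q.sum - r.sum + s := by omega
      rw [← h4]
  · rintro ⟨i, rfl⟩
    obtain ⟨⟨h1, h2, h3⟩, h5⟩ := mem_IFS.1 i.2
    refine ⟨i.1.1, W - i.1.1.sum - i.1.2.sum + s, i.1.2, rfl, ⟨h1, h5⟩, h2, ?_, by omega⟩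
    rw [wd, gw, List.sum_append, List.sum_cons]
    omega

/-- **the expansion is injective** -/
lemma PhS_inj {S : List ℕ → Prop} {W m : ℕ} (ii jj : Fin m → ↥(IFS S W)) (cc : Fin m → ℤ)
    (hexp : ∀ (A : Type) [CommRing A] (Z : List ℕ → A),
      (∀ u v, Ad u → Ad v → Z u * Z v = ((sti u v).map Z).sum) →
      ∀ s : ℕ, 2 ≤ s → ∀ c : ↥(IFS S W) → ℤ, ∑ i, (c i : A) * ex Z (wd W s i.1) =
        ∑ j, ((c (ii j) * cc j : ℤ) : A) *
          (ex Z (jj j).1.1 * ex Z (gw W s (jj j).1.1.sum (jj j).1.2))) :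
    Function.Injective (PhS ii jj cc) := by
  classical
  rw [← LinearMap.ker_eq_bot, LinearMap.ker_eq_bot']
  intro c hc
  obtain ⟨Δ, hΔ, a, ha⟩ := Pool.Agent.X90.DA.common_den c
  by_contra hne
  obtain ⟨i0, hi0⟩ : ∃ i, c i ≠ 0 := by
    by_contra h
    push Not at h
    exact hne (funext h)
  have ha0 : a i0 ≠ 0 := by
    intro h0
    have h1 := ha i0
    rw [h0, Int.cast_zero] at h1
    have hΔ' : (Δ : ℚ) ≠ 0 := by exact_mod_cast hΔ
    exact hi0 ((mul_eq_zero.1 h1).resolve_left hΔ')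
  have hPa : ∀ i, ∑ j with jj j = i, a (ii j) * cc j = 0 := by
    intro i
    have h1 : ∑ j with jj j = i, c (ii j) * cc j = 0 := congrFun hc i
    have h2 : ((∑ j with jj j = i, a (ii j) * cc j : ℤ) : ℚ) = Δ *
        ∑ j with jj j = i, c (ii j) * cc j := by
      push_cast
      rw [mul_sum]
      exact sum_congr rfl fun j _ => by rw [← ha (ii j)]; ring
    rw [h1, mul_zero] at h2
    exact_mod_cast h2
  set s : ℕ := W + 2 with hs
  have hinj := wdS_inj (S := S) (by omega : W < s)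
  obtain ⟨ℓ, hℓ⟩ : ∃ ℓ : ℕ, ∀ i : ↥(IFS S W), (wd W s i.1).length ≤ ℓ :=
    ⟨∑ i : ↥(IFS S W), (wd W s i.1).length, fun i =>
      single_le_sum (f := fun i : ↥(IFS S W) => (wd W s i.1).length)
      (fun _ _ => Nat.zero_le _) (mem_univ i)⟩
  set d : List ℕ → ℤ := fun u => ∑ i with wd W s i.1 = u, a i with hd
  have hdi : ∀ i, d (wd W s i.1) = a i := by
    intro i
    have h1 : (univ.filter fun i' : ↥(IFS S W) => wd W s i'.1 = wd W s i.1) = {i} := by
      ext i'
      rw [mem_filter, mem_singleton]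
      exact ⟨fun h => hinj h.2, fun h => ⟨mem_univ _, by rw [h]⟩⟩
    simp only [hd]
    rw [h1, sum_singleton]
  obtain ⟨ts, hts⟩ := words_indep ℓ (univ.image fun i : ↥(IFS S W) => wd W s i.1) d (fun x hx => by
      rw [mem_image] at hx
      obtain ⟨i, -, rfl⟩ := hx
      exact hℓ i) (fun x hx b hb => by
      rw [mem_image] at hx
      obtain ⟨i, -, rfl⟩ := hx
      exact wdS_pos (by omega) i b hb)
    ⟨wd W s i0.1, mem_image_of_mem _ (mem_univ _), by rw [hdi]; exact ha0⟩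
  apply hts
  rw [sum_image fun i _ j _ h => hinj h]
  simp only [hdi]
  have h1 := hexp ℂ (Zt ts) (fun u v _ _ => Zt_mul ts u v) s (by omega) a
  simp only [ex_Zt] at h1
  rw [h1, ← sum_fiberwise_of_maps_to (s := univ) (t := univ) (g := jj) (fun j _ => mem_univ _)]
  refine sum_eq_zero fun i _ => ?_
  have h2 : ∑ j with jj j = i, ((a (ii j) * cc j : ℤ) : ℂ) *
      (Zt ts (jj j).1.1 * Zt ts (gw W s (jj j).1.1.sum (jj j).1.2)) =
      ((∑ j with jj j = i, a (ii j) * cc j : ℤ) : ℂ) *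
        (Zt ts i.1.1 * Zt ts (gw W s i.1.1.sum i.1.2)) := by
    push_cast
    rw [sum_mul]
    refine sum_congr rfl fun j hj => ?_
    rw [mem_filter] at hj
    rw [hj.2]
  rw [h2, hPa i, Int.cast_zero, zero_mul]

/-- the space spanned by the relations of height at most `H` between the values with one large argument -/
noncomputable def relSS (S : List ℕ → Prop) (W k : ℕ) (H : ℝ) : Submodule ℚ (List ℕ →₀ ℚ) :=
  Submodule.span ℚ {c | (∀ w ∈ c.support, FamS S W k w) ∧
    (∀ w, ∃ z : ℤ, c w = z ∧ |(z : ℝ)| ≤ H) ∧ c.sum (fun w x => (x : ℝ) * mz w) = 0}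

/-- the map from the coefficients to the formal sums of words -/
noncomputable def EnS (S : List ℕ → Prop) (W s : ℕ) : (↥(IFS S W) → ℚ) →ₗ[ℚ] (List ℕ →₀ ℚ) :=
  Fintype.linearCombination ℚ (fun i : ↥(IFS S W) => Finsupp.single (wd W s i.1) (1 : ℚ))

lemma EnS_apply (S : List ℕ → Prop) (W s : ℕ) (c : ↥(IFS S W) → ℚ) : EnS S W s c = ∑ i, Finsupp.single (wd W s i.1) (c i) := by
  rw [EnS, Fintype.linearCombination_apply]
  refine sum_congr rfl fun i _ => ?_
  rw [Finsupp.smul_single, smul_eq_mul, mul_one]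

lemma EnS_wd {S : List ℕ → Prop} {W s : ℕ} (hs : W < s) (c : ↥(IFS S W) → ℚ) (i : ↥(IFS S W)) :
    EnS S W s c (wd W s i.1) = c i := by
  classical
  rw [EnS_apply, Finsupp.finsetSum_apply, sum_eq_single i]
  · rw [Finsupp.single_eq_same]
  · intro j _ hj
    rw [Finsupp.single_apply, if_neg]
    exact fun h => hj (wdS_inj hs h)
  · intro h
    exact absurd (mem_univ _) h

lemma EnS_out {S : List ℕ → Prop} {W s : ℕ} (c : ↥(IFS S W) → ℚ) {w : List ℕ} (hw : ∀ i : ↥(IFS S W), w ≠ wd W s i.1) :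
    EnS S W s c w = 0 := by
  classical
  rw [EnS_apply, Finsupp.finsetSum_apply]
  refine sum_eq_zero fun i _ => ?_
  rw [Finsupp.single_apply, if_neg fun h => hw i h.symm]

lemma EnS_inj {S : List ℕ → Prop} {W s : ℕ} (hs : W < s) : Function.Injective (EnS S W s) := by
  intro c d h
  funext i
  rw [← EnS_wd hs c i, h, EnS_wd hs d i]

lemma EnS_sum {S : List ℕ → Prop} {W s : ℕ} (c : ↥(IFS S W) → ℚ) :
    (EnS S W s c).sum (fun w x => (x : ℝ) * mz w) = ∑ i, (c i : ℝ) * mz (wd W s i.1) := by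
  classical
  rw [EnS_apply]
  rw [← Finsupp.sum_finsetSum_index (h := fun w x => ((x : ℚ) : ℝ) * mz w)]
  · refine sum_congr rfl fun i _ => ?_
    rw [Finsupp.sum_single_index]
    rw [Rat.cast_zero, zero_mul]
  · intro w
    rw [Rat.cast_zero, zero_mul]
  · intro w x y
    rw [Rat.cast_add, add_mul]

/-- **the dimension of the space of relations, for almost all weights** -/
theorem mainS (S : List ℕ → Prop) (hS : ∀ q, S q → ∀ p, p <+: q → S p) (W κ : ℕ) :
    ∃ K : ℕ, ∀ C : ℝ, 1 < C → ∃ N0 : ℕ, ∀ N : ℕ, N0 ≤ N → ∀ B : Finset ℕ,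
    (∀ k ∈ B, (N ≤ k ∧ k ≤ κ * N) ∧ Module.finrank ℚ (relSS S W k (C ^ k)) +
      ∑ n ∈ range (W + 1), 2 ^ (W - n) * Module.finrank ℚ (WSS S n) ≠
        ∑ n ∈ range (W + 1), 2 ^ (W - n) * (adS S n).card) → B.card ≤ K := by
  classical
  obtain ⟨m, ii, jj, cc, hexp, K, hK⟩ := coreS S hS W (κ + 1)
  refine ⟨K, fun C hC => ?_⟩
  set P := PhS ii jj cc with hP
  have hPinj : Function.Injective P := PhS_inj ii jj cc hexp
  set R := LinearMap.ker ((evS S W).comp P) with hR
  have hrank := rank_relS P hPinj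
  obtain ⟨H0, hH0, hspan⟩ := span_int R
  obtain ⟨N1, hN1⟩ : ∃ N1 : ℕ, ∀ k, N1 ≤ k → H0 ≤ C ^ k := by
    have h1 := (tendsto_pow_atTop_atTop_of_one_lt hC).eventually_ge_atTop H0
    rw [Filter.eventually_atTop] at h1
    exact h1
  obtain ⟨N0, hN0⟩ := hK (C ^ (2 * κ))
  refine ⟨N0 + N1 + (κ + 3) * W + 3, fun N hN B hB => ?_⟩
  have hκW : (κ + 3) * W = κ * W + 3 * W := by ring
  have hinjB : ∀ k ∈ B, W ≤ k := fun k hk => by
    have := (hB k hk).1.1
    omega
  have hcard : (B.image fun k => k - W).card = B.card := card_image_of_injOn fun k hk k' hk' h => by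
    have h1 := hinjB k hk
    have h2 := hinjB k' hk'
    have h3 : k - W = k' - W := h
    omega
  rw [← hcard]
  refine hN0 (N - W) (by omega) _ fun s hs => ?_
  rw [mem_image] at hs
  obtain ⟨k, hk, rfl⟩ := hs
  obtain ⟨⟨hk1, hk2⟩, hk3⟩ := hB k hk
  obtain ⟨s, rfl⟩ : ∃ s, k = s + W := ⟨k - W, by omega⟩
  rw [Nat.add_sub_cancel]
  have hsW : W < s := by omega
  refine ⟨⟨by omega, ?_⟩, ?_⟩
  · have h1 : (κ + 1) * (N - W) + (κ + 1) * W = (κ + 1) * N := by
      rw [← mul_add]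
      congr 1
      omega
    have h2 : (κ + 1) * N = κ * N + N := by ring
    have h3 : (κ + 1) * W = κ * W + W := by ring
    omega
  by_contra hcon
  push Not at hcon
  apply hk3
  rw [← hrank, add_left_inj]
  -- the two spaces
  have hval : ∀ (c : ↥(IFS S W) → ℚ) (n : ℕ) (r : List ℕ),
      ∑ i : ↥(IFS S W) with i.1.1.sum = n ∧ i.1.2 = r, (P c i : ℝ) * mz i.1.1 =
      ∑ j with (jj j).1.1.sum = n ∧ (jj j).1.2 = r, ((c (ii j) * cc j : ℚ) : ℝ) * mz (jj j).1.1 := by
    intro c n r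
    rw [← sum_fiberwise_of_maps_to (s := univ.filter fun j => (jj j).1.1.sum = n ∧ (jj j).1.2 = r)
      (t := univ.filter fun i : ↥(IFS S W) => i.1.1.sum = n ∧ i.1.2 = r) (g := jj) (fun j hj => by
        rw [mem_filter] at hj ⊢
        exact ⟨mem_univ _, hj.2⟩)]
    refine sum_congr rfl fun i hi => ?_
    rw [mem_filter] at hi
    rw [filter_filter]
    have h1 : (univ.filter fun j => ((jj j).1.1.sum = n ∧ (jj j).1.2 = r) ∧ jj j = i) =
        univ.filter fun j => jj j = i := by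
      ext j
      rw [mem_filter, mem_filter]
      constructor
      · rintro ⟨g1, -, g2⟩
        exact ⟨g1, g2⟩
      · rintro ⟨g1, g2⟩
        refine ⟨g1, ?_, g2⟩
        rw [g2]
        exact hi.2
    rw [h1]
    have h2 : P c i = ∑ j with jj j = i, c (ii j) * cc j := rfl
    rw [h2]
    push_cast
    rw [sum_mul]
    refine sum_congr rfl fun j hj => ?_
    rw [mem_filter] at hj
    rw [hj.2]
  have hmemR : ∀ c : ↥(IFS S W) → ℚ, c ∈ R ↔ ∀ (n : ℕ) (r : List ℕ),
      ∑ j with (jj j).1.1.sum = n ∧ (jj j).1.2 = r, ((c (ii j) * cc j : ℚ) : ℝ) * mz (jj j).1.1 =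
        0 := by
    intro c
    rw [hR, LinearMap.mem_ker]
    constructor
    · intro h n r
      by_cases hx : (n, r) ∈ XF W
      · have h1 := congrArg Subtype.val (congrFun h ⟨(n, r), hx⟩)
        have h2 : ∑ i : ↥(IFS S W) with i.1.1.sum = n ∧ i.1.2 = r, (P c) i • mz i.1.1 = 0 := h1
        rw [← hval]
        rw [← h2]
        exact sum_congr rfl fun i _ => by rw [Rat.smul_def]
      · refine sum_eq_zero fun j hj => ?_
        rw [mem_filter] at hj
        exfalso
        apply hx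
        have h1 := (mem_IFS.1 (jj j).2).1
        rw [← hj.2.1, ← hj.2.2]
        exact mem_XF.2 ⟨h1.2.1, h1.2.2⟩
    · intro h
      funext x
      ext
      show ∑ i : ↥(IFS S W) with i.1.1.sum = x.1.1 ∧ i.1.2 = x.1.2, (P c) i • mz i.1.1 = 0
      rw [← h x.1.1 x.1.2, ← hval]
      exact sum_congr rfl fun i _ => by rw [Rat.smul_def]
  have hle1 : relSS S W (s + W) (C ^ (s + W)) ≤ R.map (EnS S W s) := by
    rw [relSS, Submodule.span_le]
    rintro c ⟨hc1, hc2, hc3⟩
    rw [SetLike.mem_coe, Submodule.mem_map]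
    have hcE : EnS S W s (fun i => c (wd W s i.1)) = c := by
      ext w
      by_cases hw : ∃ i : ↥(IFS S W), w = wd W s i.1
      · obtain ⟨i, rfl⟩ := hw
        rw [EnS_wd hsW]
      · push Not at hw
        rw [EnS_out _ hw]
        by_contra h0
        have h1 := hc1 w (Finsupp.mem_support_iff.2 fun h => h0 h.symm)
        rw [famS_iff] at h1
        obtain ⟨i, hi⟩ := h1
        exact hw i hi
    refine ⟨fun i => c (wd W s i.1), ?_, hcE⟩
    choose z hz1 hz2 using hc2
    rw [hmemR]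
    by_contra hcon2
    push Not at hcon2
    obtain ⟨n, r, hnr⟩ := hcon2
    refine hnr ?_
    have h1 := hcon (fun i => z (wd W s i.1)) (fun i => ?_) ?_ n r
    · rw [← h1]
      refine sum_congr rfl fun j _ => ?_
      rw [hz1]
      push_cast
      rfl
    · refine (hz2 _).trans ?_
      rw [← pow_mul]
      refine pow_le_pow_right₀ hC.le ?_
      refine hk2.trans ?_
      have h4 : N ≤ 2 * (N - W) := by omega
      calc κ * N ≤ κ * (2 * (N - W)) := Nat.mul_le_mul_left _ h4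
        _ = 2 * κ * (N - W) := by ring
    · have h1 := EnS_sum (s := s) fun i : ↥(IFS S W) => c (wd W s i.1)
      rw [hcE, hc3] at h1
      rw [h1]
      refine sum_congr rfl fun i _ => ?_
      rw [hz1]
      push_cast
      rfl
  have hle2 : R.map (EnS S W s) ≤ relSS S W (s + W) (C ^ (s + W)) := by
    refine (Submodule.map_mono hspan).trans ?_
    rw [Submodule.map_span, Submodule.span_le]
    rintro _ ⟨c, ⟨hcR, hcz⟩, rfl⟩
    have hH : H0 ≤ C ^ (s + W) := hN1 _ (by omega)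
    refine Submodule.subset_span ⟨fun w hw => ?_, fun w => ?_, ?_⟩
    · by_contra h0
      rw [famS_iff] at h0
      push Not at h0
      rw [Finsupp.mem_support_iff] at hw
      exact hw (EnS_out c h0)
    · by_cases hw : ∃ i : ↥(IFS S W), w = wd W s i.1
      · obtain ⟨i, rfl⟩ := hw
        obtain ⟨z, hz1, hz2⟩ := hcz i
        exact ⟨z, by rw [EnS_wd hsW, hz1], hz2.trans hH⟩
      · push Not at hw
        exact ⟨0, by rw [EnS_out c hw, Int.cast_zero], by
          rw [Int.cast_zero, abs_zero]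
          exact hH0.trans hH⟩
    · rw [EnS_sum]
      choose z hz1 hz2 using hcz
      have h1 := hexp ℝ mz mz_stuffle s (by omega) z
      have hexR : ∀ u, ex mz u = mz u := by
        intro u
        by_cases h : u = []
        · rw [h, ex_nil, mz]
        · rw [ex_ne _ h]
      simp only [hexR] at h1
      have h2 : ∑ i : ↥(IFS S W), (c i : ℝ) * mz (wd W s i.1) =
          ∑ i : ↥(IFS S W), (z i : ℝ) * mz (wd W s i.1) :=
        sum_congr rfl fun i _ => by rw [hz1 i, Rat.cast_intCast]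
      rw [h2, h1]
      rw [hmemR] at hcR
      rw [← sum_fiberwise_of_maps_to (s := univ)
        (t := univ.image fun j => ((jj j).1.1.sum, (jj j).1.2))
        (g := fun j => ((jj j).1.1.sum, (jj j).1.2)) (fun j _ => mem_image_of_mem _ (mem_univ j))]
      refine sum_eq_zero fun x _ => ?_
      have h3 : ∑ j with ((jj j).1.1.sum, (jj j).1.2) = x, ((z (ii j) * cc j : ℤ) : ℝ) *
          (mz (jj j).1.1 * mz (gw W s (jj j).1.1.sum (jj j).1.2)) =
          (∑ j with (jj j).1.1.sum = x.1 ∧ (jj j).1.2 = x.2,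
            ((c (ii j) * cc j : ℚ) : ℝ) * mz (jj j).1.1) * mz (gw W s x.1 x.2) := by
        rw [sum_mul]
        refine sum_congr ?_ fun j hj => ?_
        · ext j
          rw [mem_filter, mem_filter, Prod.ext_iff]
        · rw [mem_filter] at hj
          rw [hj.2.1, hj.2.2, hz1]
          push_cast
          ring
      rw [h3, hcR, zero_mul]
  rw [le_antisymm hle1 hle2]
  exact (LinearEquiv.finrank_eq (Submodule.equivMapOfInjective _ (EnS_inj hsW) R)).symm

end Pool.Agent.X90.DI
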